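import Pool.Agent.H8.DS.TarG

/-!
ESCD: downward half leaves of a Hopf torus accumulate at the lower ray.
-/

namespace DS

open Set Data

theorem pf_ESCD : T_ESCD := by
  intro C S X hX t c hc z ε hε
  have hgood := hX.good c
  unfold Data.Hopf at hc
  cases hk : X.kind c with
  | flat e f => rw [hk] at hc; exact absurd hc (by simp [Comp.IsHopf])
  | hopf l =>
    rw [hk] at hgood
    have hl : 1 < l := hgood
    have hl0 : (0 : ℝ) < l := by linarith
    have h1 : Filter.Tendsto (fun n : ℕ => l ^ n) Filter.atTop Filter.atTop :=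
      tendsto_pow_atTop_atTop_of_one_lt hl
    have h2 : Filter.Tendsto (fun n : ℕ => (z.1 - t * z.2) * (l ^ n)⁻¹) Filter.atTop
        (nhds 0) := by
      have := h1.inv_tendsto_atTop.const_mul (z.1 - t * z.2)
      simpa using this
    have e1 : ∀ᶠ n : ℕ in Filter.atTop, -z.2 < l ^ n := h1.eventually_gt_atTop _
    have e2 : ∀ᶠ n : ℕ in Filter.atTop, |(z.1 - t * z.2) * (l ^ n)⁻¹| < ε := by
      have := (Metric.tendsto_nhds.1 h2) ε hε
      filter_upwards [this] with n hn
      simpa [Real.dist_eq] using hn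
    obtain ⟨n, hn1, hn2⟩ := (e1.and e2).exists
    have hp : (0 : ℝ) < l ^ n := pow_pos hl0 n
    refine ⟨z.2 + l ^ n, by linarith, ((l ^ n)⁻¹, 0, 0), ?_, ?_⟩
    · refine ⟨(-(n : ℤ), 0), ?_⟩
      rw [hk]
      simp [Comp.el]
    · refine ⟨rfl, ?_, ?_⟩
      · have : (act ((l ^ n)⁻¹, 0, 0) (fwd t z (-(z.2 + l ^ n)))).1 - -t
            = (z.1 - t * z.2) * (l ^ n)⁻¹ := by
          unfold act fwd
          field_simp
          ring
        show |(act ((l ^ n)⁻¹, 0, 0) (fwd t z (-(z.2 + l ^ n)))).1 - -t| < ε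
        rw [this]
        exact hn2
      · have : (act ((l ^ n)⁻¹, 0, 0) (fwd t z (-(z.2 + l ^ n)))).2 - -1 = 0 := by
          unfold act fwd
          field_simp
          ring
        show |(act ((l ^ n)⁻¹, 0, 0) (fwd t z (-(z.2 + l ^ n)))).2 - -1| < ε
        rw [this]
        simpa using hε

end DS
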