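import Pool.Agent.H8.DS.TarK

/-!
MEET: the meaning of `La`, `Lb`, `Lc` and `q`.
-/

namespace DS

open Set Data

theorem pf_MEET : T_MEET := by
  intro C S X hX t s ξ k hck hb
  have hG : 0 < (X.lel k).1 := X.deck_pos hX (X.comp k.1) _ ⟨k.2, rfl⟩
  have hL : 0 < X.len (X.glue s) := hX.pos _
  have hL' : 0 < X.len k.1 := hX.pos _
  have hGL : 0 < (X.lel k).1 * X.len k.1 := mul_pos hG hL'
  have hd : 0 < X.hgt k - X.b (X.glue s) := by linarith
  have key : X.La s k * ξ + (X.Lb s k * t + X.Lc s k)
      = (X.len (X.glue s) * ξ + (X.hgt k - X.b (X.glue s)) * t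
        + (X.a (X.glue s) - X.lft k)) / ((X.lel k).1 * X.len k.1) := by
    unfold La Lb Lc
    field_simp
    ring
  refine ⟨div_pos hL hGL, div_pos hd hGL, ?_, ?_, ?_, ?_, ?_⟩
  · intro η
    rw [key, eq_div_iff hGL.ne']
    unfold fwd pt act lft hgt
    constructor
    · intro h
      have h1 := congrArg Prod.fst h
      simp only at h1
      linarith
    · intro h
      refine Prod.ext ?_ ?_
      · simp only
        linarith
      · simp only
        ring
  · rw [key, le_div_iff₀ hGL, zero_mul]
    unfold q
    rw [div_le_iff₀ hL]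
    constructor <;> intro h <;> linarith
  · rw [key, lt_div_iff₀ hGL, zero_mul]
    unfold q
    rw [div_lt_iff₀ hL]
    constructor <;> intro h <;> linarith
  · rw [key, div_le_one hGL]
    unfold q wid
    rw [le_div_iff₀ hL]
    constructor <;> intro h <;> linarith
  · rw [key, div_lt_one hGL]
    unfold q wid
    rw [lt_div_iff₀ hL]
    constructor <;> intro h <;> linarith

end DS
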